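import Pool.Agent.W2helper3.BQ.Stm

/-!
# Project BQ, piece CUT (helper82)

Compactly supported functions are dense in the Schwartz space of the line.
-/

set_option autoImplicit false

open MeasureTheory Set Filter Topology
open scoped SchwartzMap ENNReal ContDiff BigOperators

namespace Pool.Agent.W2helper82.BQ

/-- a cutoff function -/
theorem exists_cutoff : ∃ χ : ℝ → ℝ, ContDiff ℝ ∞ χ ∧ (∀ x, |x| ≤ 1 → χ x = 1) ∧
    (∀ x, 2 ≤ |x| → χ x = 0) ∧ ∀ i : ℕ, ∃ C : ℝ, 0 ≤ C ∧ ∀ x, ‖iteratedDeriv i χ x‖ ≤ C := by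
  let b : ContDiffBump (0 : ℝ) := ⟨1, 2, one_pos, one_lt_two⟩
  have hb : ContDiff ℝ ∞ (fun x => b x) := b.contDiff
  have hcs : HasCompactSupport (fun x => b x) := b.hasCompactSupport
  refine ⟨fun x => b x, hb, ?_, ?_, ?_⟩
  · intro x hx
    apply b.one_of_mem_closedBall
    simpa [Metric.mem_closedBall, Real.dist_eq] using hx
  · intro x hx
    apply b.zero_of_le_dist
    simpa [Real.dist_eq] using hx
  · intro i
    have h1 : Continuous (iteratedDeriv i (fun x => b x)) :=
      hb.continuous_iteratedDeriv i (by exact_mod_cast le_top)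
    have h2 : HasCompactSupport (iteratedDeriv i (fun x => b x)) := by
      have h3 : HasCompactSupport (iteratedFDeriv ℝ i (fun x => b x)) := hcs.iteratedFDeriv i
      refine h3.mono ?_
      intro x hx
      simp only [Function.mem_support] at hx ⊢
      intro h0
      apply hx
      rw [iteratedDeriv_eq_iteratedFDeriv, h0]
      simp
    obtain ⟨C, hC⟩ := h2.exists_bound_of_continuous h1
    exact ⟨C, (norm_nonneg _).trans (hC 0), hC⟩

theorem p_CUT : Pool.Agent.W2helper3.BQ.P_CUT := by
  intro ζ
  obtain ⟨χ, hχ, hχ1, hχ0, hχb⟩ := exists_cutoff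
  choose C hC0 hC using hχb
  set c : ℕ → ℝ := fun j => 1 / ((j : ℝ) + 1) with hcdef
  have hc0 : ∀ j, 0 < c j := fun j => by positivity
  have hc1 : ∀ j, c j ≤ 1 := fun j => by
    rw [hcdef]
    simp only
    rw [div_le_one (by positivity)]
    linarith [(Nat.cast_nonneg j : (0 : ℝ) ≤ j)]
  have hζ : ContDiff ℝ ∞ (fun x => ζ x) := ζ.smooth ⊤
  have hsm : ∀ j, ContDiff ℝ ∞ (fun x : ℝ => χ (c j * x)) := fun j =>
    hχ.comp (contDiff_const.mul contDiff_id)
  have hsmz : ∀ j, ContDiff ℝ ∞ (fun x : ℝ => χ (c j * x) • ζ x) := fun j => (hsm j).smul hζ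
  have hcsz : ∀ j, HasCompactSupport (fun x : ℝ => χ (c j * x) • ζ x) := by
    intro j
    refine HasCompactSupport.of_support_subset_isCompact (K := Icc (-(2 / c j)) (2 / c j))
      isCompact_Icc ?_
    intro x hx
    rw [Function.mem_support] at hx
    rw [mem_Icc, ← abs_le]
    by_contra hcon
    push Not at hcon
    apply hx
    have h2 : 2 ≤ |c j * x| := by
      rw [abs_mul, abs_of_pos (hc0 j)]
      rw [div_lt_iff₀ (hc0 j)] at hcon
      linarith [mul_comm (c j) |x|]
    rw [hχ0 _ h2, zero_smul]
  refine ⟨fun j => (hcsz j).toSchwartzMap (hsmz j), fun j => ?_, ?_⟩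
  · exact hcsz j
  · rw [(schwartz_withSeminorms ℝ ℝ ℂ).tendsto_nhds]
    rintro ⟨k, n⟩ ε hε
    -- the constant
    set M : ℝ := ∑ i ∈ Finset.range (n + 1), (n.choose i : ℝ) * (C i + 1) *
      SchwartzMap.seminorm ℝ (k + 1) (n - i) ζ with hM
    have hM0 : 0 ≤ M := Finset.sum_nonneg fun i _ =>
      mul_nonneg (mul_nonneg (Nat.cast_nonneg _) (by linarith [hC0 i])) (apply_nonneg _ _)
    have key : ∀ j, SchwartzMap.seminorm ℝ k n ((hcsz j).toSchwartzMap (hsmz j) - ζ) ≤ c j * M := by
      intro j
      apply SchwartzMap.seminorm_le_bound ℝ k n _ (mul_nonneg (hc0 j).le hM0)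
      intro x
      have hfun : (((hcsz j).toSchwartzMap (hsmz j) - ζ : 𝓢(ℝ, ℂ)) : ℝ → ℂ) =
          fun x => (χ (c j * x) - 1) • ζ x := by
        funext y
        rw [sub_apply, sub_smul, one_smul]
        rfl
      rw [hfun]
      by_cases hx : |c j * x| < 1
      · have h0 : (fun x => (χ (c j * x) - 1) • ζ x) =ᶠ[𝓝 x] fun _ => (0 : ℂ) := by
          have hop : IsOpen {y : ℝ | |c j * y| < 1} :=
            isOpen_lt (continuous_const.mul continuous_id).abs continuous_const
          filter_upwards [hop.mem_nhds hx] with y hy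
          rw [hχ1 _ (le_of_lt hy), sub_self, zero_smul]
        rw [norm_iteratedFDeriv_eq_norm_iteratedDeriv,
          Filter.EventuallyEq.iteratedDeriv_eq n h0, ← norm_iteratedFDeriv_eq_norm_iteratedDeriv]
        have : iteratedFDeriv ℝ n (fun _ : ℝ => (0 : ℂ)) x = 0 := by
          simp
        rw [this, norm_zero, mul_zero]
        exact mul_nonneg (hc0 j).le hM0
      · push Not at hx
        have hx1 : 1 ≤ c j * ‖x‖ := by
          rw [abs_mul, abs_of_pos (hc0 j)] at hx
          exact hx
        have hsm1 : ContDiff ℝ ∞ (fun x : ℝ => χ (c j * x) - 1) := (hsm j).sub contDiff_const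
        have hle := norm_iteratedFDeriv_smul_le (𝕜 := ℝ) hsm1 hζ x (n := n)
          (by exact_mod_cast le_top)
        have hd : ∀ i : ℕ, ‖iteratedFDeriv ℝ i (fun x : ℝ => χ (c j * x) - 1) x‖ ≤ C i + 1 := by
          intro i
          rw [norm_iteratedFDeriv_eq_norm_iteratedDeriv]
          rcases Nat.eq_zero_or_pos i with hi | hi
          · subst hi
            rw [iteratedDeriv_zero]
            have := hC 0 (c j * x)
            rw [iteratedDeriv_zero] at this
            calc ‖χ (c j * x) - 1‖ ≤ ‖χ (c j * x)‖ + ‖(1 : ℝ)‖ := norm_sub_le _ _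
              _ ≤ C 0 + 1 := by rw [norm_one]; linarith
          · have h1 : iteratedDeriv i (fun x : ℝ => χ (c j * x) - 1) x =
                iteratedDeriv i (fun x : ℝ => χ (c j * x)) x := by
              have : (fun x : ℝ => χ (c j * x) - 1) = fun x : ℝ => (-1) + χ (c j * x) := by
                funext y; ring
              rw [this, iteratedDeriv_const_add hi]
            rw [h1]
            have h2 := congrFun (iteratedDeriv_comp_const_mul (n := i) (f := χ)
              (hχ.of_le (by exact_mod_cast le_top)) (c j)) x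
            rw [h2, norm_mul, norm_pow, Real.norm_of_nonneg (hc0 j).le]
            calc c j ^ i * ‖iteratedDeriv i χ (c j * x)‖ ≤ 1 * C i :=
                  mul_le_mul (pow_le_one₀ (hc0 j).le (hc1 j)) (hC i _) (norm_nonneg _) zero_le_one
              _ ≤ C i + 1 := by linarith
        calc ‖x‖ ^ k * ‖iteratedFDeriv ℝ n (fun x => (χ (c j * x) - 1) • ζ x) x‖
            ≤ ‖x‖ ^ k * (c j * ‖x‖) * ∑ i ∈ Finset.range (n + 1), (n.choose i : ℝ) *
                ‖iteratedFDeriv ℝ i (fun x : ℝ => χ (c j * x) - 1) x‖ *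
                ‖iteratedFDeriv ℝ (n - i) (fun x => ζ x) x‖ := by
              refine mul_le_mul ?_ hle (norm_nonneg _) (by positivity)
              exact le_mul_of_one_le_right (by positivity) hx1
          _ = c j * ∑ i ∈ Finset.range (n + 1), (n.choose i : ℝ) *
                ‖iteratedFDeriv ℝ i (fun x : ℝ => χ (c j * x) - 1) x‖ *
                (‖x‖ ^ (k + 1) * ‖iteratedFDeriv ℝ (n - i) (fun x => ζ x) x‖) := by
              rw [Finset.mul_sum, Finset.mul_sum]
              refine Finset.sum_congr rfl fun i _ => ?_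
              ring
          _ ≤ c j * M := by
              refine mul_le_mul_of_nonneg_left (Finset.sum_le_sum fun i _ => ?_) (hc0 j).le
              refine mul_le_mul (mul_le_mul_of_nonneg_left (hd i) (Nat.cast_nonneg _)) ?_
                (by positivity) (mul_nonneg (Nat.cast_nonneg _) (by linarith [hC0 i]))
              exact SchwartzMap.le_seminorm ℝ (k + 1) (n - i) ζ x
    have hlim : Tendsto (fun j => c j * M) atTop (𝓝 0) := by
      have h1 : Tendsto c atTop (𝓝 0) := tendsto_one_div_add_atTop_nhds_zero_nat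
      simpa using h1.mul_const M
    filter_upwards [hlim.eventually (gt_mem_nhds hε)] with j hj
    exact (key j).trans_lt hj

end Pool.Agent.W2helper82.BQ
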