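import Pool.Agent.W2helper3.BQ.Stm

/-!
# Project BQ, piece DEN (helper82)

Density in `L^p` of the functions `pol P ζ`, `ζ` compactly supported.
-/

set_option autoImplicit false

open MeasureTheory Set Filter Topology
open scoped SchwartzMap ENNReal ContDiff BigOperators

namespace Pool.Agent.W2helper82.BQ

open Pool.Agent.W2helper3.BQ

theorem pol_mul_sub (P : Polynomial ℝ) (a : ℝ) (ζ : 𝓢(ℝ, ℂ)) :
    pol (P * (Polynomial.X - Polynomial.C a)) ζ = pol P (DD ζ - a • ζ) := by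
  unfold pol
  rw [map_mul, map_sub, Polynomial.aeval_X, Polynomial.aeval_C, Module.End.mul_apply]
  congr 1

theorem continuous_pol (P : Polynomial ℝ) : Continuous (pol P) := by
  have hDD : Continuous (fun ζ : 𝓢(ℝ, ℂ) => DD ζ) := (SchwartzMap.derivCLM ℝ ℂ).continuous
  have hpow : ∀ i : ℕ, Continuous (fun ζ : 𝓢(ℝ, ℂ) => (DD ^ i) ζ) := by
    intro i
    induction i with
    | zero =>
      have : (fun ζ : 𝓢(ℝ, ℂ) => (DD ^ 0) ζ) = id := by
        funext ζ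
        simp
      rw [this]
      exact continuous_id
    | succ i ih =>
      have : (fun ζ : 𝓢(ℝ, ℂ) => (DD ^ (i + 1)) ζ) = fun ζ => (DD ^ i) (DD ζ) := by
        funext ζ
        rw [pow_succ, Module.End.mul_apply]
      rw [this]
      exact ih.comp hDD
  have h : pol P = fun ζ => ∑ i ∈ Finset.range (P.natDegree + 1), P.coeff i • ((DD ^ i) ζ) := by
    funext ζ
    unfold pol
    rw [Polynomial.aeval_eq_sum_range, LinearMap.sum_apply]
    rfl
  rw [h]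
  refine continuous_finsetSum _ fun i _ => ?_
  exact (hpow i).const_smul (P.coeff i)

theorem pol_surj (hS : P_SUR) (α : ℕ → ℝ) : ∀ (n : ℕ), (∀ i, i < n → α i ≠ 0) → ∀ φ : 𝓢(ℝ, ℂ),
    ∃ ζ : 𝓢(ℝ, ℂ),
      pol (∏ i ∈ Finset.range n, (Polynomial.X - Polynomial.C (α i))) ζ = φ := by
  intro n
  induction n with
  | zero =>
    intro _ φ
    refine ⟨φ, ?_⟩
    simp [pol]
  | succ n ih =>
    intro hα φ
    obtain ⟨ζ₁, h₁⟩ := ih (fun i hi => hα i (Nat.lt_succ_of_lt hi)) φ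
    obtain ⟨ζ, hζ⟩ := hS (α n) (hα n (Nat.lt_succ_self n)) ζ₁
    refine ⟨ζ, ?_⟩
    rw [Finset.prod_range_succ, pol_mul_sub, hζ, h₁]

theorem p_DEN : P_DEN := by
  intro hS hC n α hα φ p ε hp hε
  obtain ⟨ζ₀, hζ₀⟩ := pol_surj hS α n hα φ
  obtain ⟨z, hz, hzt⟩ := hC ζ₀
  set P : Polynomial ℝ := ∏ i ∈ Finset.range n, (Polynomial.X - Polynomial.C (α i)) with hP
  have : Fact ((1 : ℝ≥0∞) ≤ ENNReal.ofReal p) := ⟨by
    rw [← ENNReal.ofReal_one]; exact ENNReal.ofReal_le_ofReal hp⟩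
  have h1 : Tendsto (fun j => (pol P (z j)).toLp (ENNReal.ofReal p) (volume : Measure ℝ)) atTop
      (𝓝 (φ.toLp (ENNReal.ofReal p) (volume : Measure ℝ))) := by
    have h2 := ((SchwartzMap.continuous_toLp (E := ℝ) (F := ℂ) (p := ENNReal.ofReal p)
      (μ := (volume : Measure ℝ))).comp (continuous_pol P)).tendsto ζ₀
    have h3 := h2.comp hzt
    simp only [Function.comp_apply] at h3
    rw [hζ₀] at h3
    exact h3
  rw [tendsto_iff_norm_sub_tendsto_zero] at h1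
  obtain ⟨j, hj⟩ := (h1.eventually (gt_mem_nhds hε)).exists
  refine ⟨z j, hz j, ?_⟩
  have h4 : (pol P (z j)).toLp (ENNReal.ofReal p) (volume : Measure ℝ) -
      φ.toLp (ENNReal.ofReal p) (volume : Measure ℝ) =
      (pol P (z j) - φ).toLp (ENNReal.ofReal p) (volume : Measure ℝ) := rfl
  rw [h4, SchwartzMap.norm_toLp] at hj
  have h5 : eLpNorm (pol P (z j) - φ : 𝓢(ℝ, ℂ)) (ENNReal.ofReal p) (volume : Measure ℝ) ≠ ⊤ :=
    ((pol P (z j) - φ).memLp (ENNReal.ofReal p) (volume : Measure ℝ)).eLpNorm_lt_top.ne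
  have h6 : (fun u => pol P (z j) u - φ u) = ((pol P (z j) - φ : 𝓢(ℝ, ℂ)) : ℝ → ℂ) := rfl
  rw [h6]
  exact (ENNReal.le_ofReal_iff_toReal_le h5 hε.le).2 hj.le

end Pool.Agent.W2helper82.BQ
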